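import Pool.Agent.H.MP_cf1990_gt.A

namespace Pool.Agent.Results.MP_cf1990_gt.Counter

open Set Metric MeasureTheory Topology
open scoped ENNReal ContDiff

/-- The standard symplectic form `dx ∧ dy` on `ℝ² = ℂ`. -/
def omega0 (u v : ℂ) : ℝ := u.re * v.im - u.im * v.re

/-- Symplectomorphism of `ℝ²`: a smooth diffeomorphism preserving `omega0`. -/
def IsSymplecto (ψ : ℂ ≃ ℂ) : Prop :=
  ContDiff ℝ ∞ ψ ∧ ContDiff ℝ ∞ ψ.symm ∧
    ∀ z u v : ℂ, omega0 (fderiv ℝ ψ z u) (fderiv ℝ ψ z v) = omega0 u v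

/-- Normalised capacity on `ℝ²` (for `n = 1` the cylinder `Z²(r)` is the disc `B²(r)`). -/
def IsNormalisedCapacity (c : Set ℂ → ℝ≥0∞) : Prop :=
  (∀ (A B : Set ℂ) (ψ : ℂ ≃ ℂ), IsSymplecto ψ → ψ '' A ⊆ B → c A ≤ c B) ∧
  (∀ (A : Set ℂ) (l : ℝ), l ≠ 0 → c ((fun z => l • z) '' A) = ENNReal.ofReal (l ^ 2) * c A) ∧
  ∀ r : ℝ, 0 < r → c (closedBall 0 r) = ENNReal.ofReal (Real.pi * r ^ 2)

open Pool.Agent.H.MP_cf1990_gt in
theorem result : ∃ c : Set ℂ → ℝ≥0∞, IsNormalisedCapacity c ∧ ∃ φ : ℂ ≃ₜ ℂ,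
    (∀ p : ℂ, ∃ U ∈ 𝓝 p, ∀ V : Set ℂ, IsOpen V → V ⊆ U → c (φ '' V) = c V) ∧
    ∃ V : Set ℂ, IsOpen V ∧ c (φ '' V) ≠ c V := by
  classical
  refine ⟨fun A => if Bad A then ⊤ else volume A, ⟨?_, ?_, ?_⟩, sh, fun p => ?_, V0, isOpen_V0, ?_⟩
  · rintro A B ψ ⟨h1, h2, h3⟩ hAB
    let χ : ℂ ≃ₜ ℂ := ⟨ψ, h1.continuous, h2.continuous⟩
    have d : Differentiable ℝ χ := h1.differentiable (by simp)
    have dt : ∀ z, (fderiv ℝ χ z).det = 1 := by
      intro z
      rw [det_eq]
      have := h3 z 1 Complex.I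
      simp only [omega0, Complex.one_re, Complex.I_im, Complex.one_im, Complex.I_re] at this
      change (fderiv ℝ ψ z 1).re * (fderiv ℝ ψ z Complex.I).im
        - (fderiv ℝ ψ z 1).im * (fderiv ℝ ψ z Complex.I).re = 1
      linarith
    have sc := scales_of_det χ d dt
    by_cases hB : Bad B
    · simp [hB]
    · have hA : ¬ Bad A := fun hA => hB (hA.map χ (fun z => ⟨_, (d z).hasFDerivAt, by
        rw [injective_iff_map_eq_zero]
        intro u hu
        have a := h3 z u 1
        have b := h3 z u Complex.I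
        change fderiv ℝ ψ z u = 0 at hu
        rw [hu] at a b
        simp [omega0] at a b
        exact Complex.ext b.symm a⟩) one_pos sc hAB)
      simp only [hA, hB, if_false]
      have := sc A
      rw [ENNReal.ofReal_one, one_mul] at this
      rw [← this]
      exact measure_mono hAB
  · intro A l hl
    by_cases hA : Bad A
    · have : ENNReal.ofReal (l ^ 2) ≠ 0 := by
        simp only [ne_eq, ENNReal.ofReal_eq_zero, not_le]; positivity
      simp only [hA, bad_smul hA hl, if_true]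
      rw [ENNReal.mul_top this]
    · have hB : ¬ Bad ((fun z => l • z) '' A) := fun h => hA (by
        have := bad_smul h (inv_ne_zero hl)
        rw [image_image] at this
        simp only [smul_smul, inv_mul_cancel₀ hl, one_smul, image_id'] at this
        exact this)
      simp only [hA, hB, if_false]
      have := Measure.addHaar_smul (volume : Measure ℂ) l A
      rw [Complex.finrank_real_complex, abs_of_nonneg (sq_nonneg l)] at this
      exact this
  · intro r hr
    simp only [not_bad_bdd isBounded_closedBall, if_false]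
    exact vol_cball 0 hr.le
  · refine ⟨closedBall p 1, closedBall_mem_nhds p one_pos, fun V _ hV => ?_⟩
    have b1 : ¬ Bad V := not_bad_bdd (isBounded_closedBall.subset hV)
    have b2 : ¬ Bad (sh '' V) := not_bad_bdd
      (((isCompact_closedBall p 1).image sh.continuous).isBounded.subset (image_mono hV))
    simp only [b1, b2, if_false]
    exact vol_sh V
  · simp only [not_bad_sh, bad_V0, if_true, if_false]
    rw [vol_sh]
    exact vol_V0.ne

end Pool.Agent.Results.MP_cf1990_gt.Counter
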